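import Pool.Agent.Helper87.Irr.Basics2

/-! MP_033e98_co, packet A3 (one open run): `rE : Irr87.RE`. -/

namespace Irr87

open Irr37

namespace H47

/-- greedy run with the smallest free deficits -/
theorem run (p : ℕ) (V : Finset ℕ) : ∀ m : ℕ, V.card + m ≤ p →
    ∃ (gs : List ℕ) (c M : ℕ), gs.length = m ∧ gs.Nodup ∧ (∀ D ∈ gs, D < M ∧ 2 * p - D ∉ V) ∧
      M ≤ p ∧ (∀ D < M, 2 * p - D ∈ V ∨ D ∈ gs) ∧ c ≤ M ∧ Chain p 0 gs c := by
  intro m
  induction m with
  | zero =>
    intro _
    exact ⟨[], 0, 0, rfl, List.nodup_nil, by simp, Nat.zero_le _, by simp, le_rfl, rfl⟩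
  | succ m ih =>
    intro hm
    obtain ⟨gs, c, M, h1, h2, h3, h4, h5, h6, h7⟩ := ih (by omega)
    -- a free deficit not in `gs`
    have hex : ∃ g, g < p ∧ g ∉ gs ∧ 2 * p - g ∉ V := by
      by_contra hcon
      push Not at hcon
      have hsub : Finset.range p ⊆ gs.toFinset ∪ (Finset.range p).filter (fun D => 2 * p - D ∈ V) := by
        intro D hD
        have hD' := Finset.mem_range.1 hD
        by_cases hg : D ∈ gs
        · exact Finset.mem_union_left _ (List.mem_toFinset.2 hg)
        · exact Finset.mem_union_right _ (Finset.mem_filter.2 ⟨hD, hcon D hD' hg⟩)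
      have hc1 : ((Finset.range p).filter (fun D => 2 * p - D ∈ V)).card ≤ V.card := by
        refine Finset.card_le_card_of_injOn (fun D => 2 * p - D) ?_ ?_
        · intro D hD
          exact (Finset.mem_filter.1 hD).2
        · intro a ha b hb hab
          have ha' := Finset.mem_range.1 (Finset.mem_filter.1 ha).1
          have hb' := Finset.mem_range.1 (Finset.mem_filter.1 hb).1
          simp only at hab
          omega
      have hc2 := Finset.card_le_card hsub
      have hc3 := Finset.card_union_le gs.toFinset ((Finset.range p).filter (fun D => 2 * p - D ∈ V))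
      have hc4 := List.toFinset_card_le gs
      rw [Finset.card_range] at hc2
      omega
    classical
    obtain ⟨hg1, hg2, hg3⟩ := Nat.find_spec hex
    have hmin : ∀ D < Nat.find hex, ¬ (D < p ∧ D ∉ gs ∧ 2 * p - D ∉ V) := fun D hD => Nat.find_min hex hD
    set g := Nat.find hex with hgdef
    have hMg : M ≤ g := by
      by_contra hlt
      push Not at hlt
      rcases h5 g hlt with h | h
      · exact hg3 h
      · exact hg2 h
    refine ⟨gs ++ [g], g - c, g + 1, by simp [h1], ?_, ?_, by omega, ?_, by omega, ?_⟩
    · rw [List.nodup_append]
      refine ⟨h2, List.nodup_singleton g, ?_⟩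
      intro a ha b hb
      have : b = g := by simpa using hb
      subst this
      rintro rfl
      exact hg2 ha
    · intro D hD
      rcases List.mem_append.1 hD with hD | hD
      · have := h3 D hD
        exact ⟨by omega, this.2⟩
      · have : D = g := by simpa using hD
        subst this
        exact ⟨by omega, hg3⟩
    · intro D hD
      rcases Nat.lt_or_ge D g with h | h
      · have h' := hmin D h
        by_cases hDg : D ∈ gs
        · exact Or.inr (List.mem_append_left _ hDg)
        · left
          by_contra hV
          exact h' ⟨by omega, hDg, hV⟩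
      · have : D = g := by omega
        subst this
        exact Or.inr (by simp)
    · refine h7.append ?_
      exact ⟨by omega, hg1, rfl⟩

end H47

open H47 in
theorem rE : RE := by
  intro p n K z C V hn hIn hC hV
  have hzV : z ≤ V.card := le_trans (hIn z le_rfl) (Finset.card_filter_le _ _)
  obtain ⟨gs, c, M, h1, h2, h3, h4, h5, h6, h7⟩ := run p V (n - 1) (by omega)
  set a := C + p with ha
  have hap : 2 * p + n ≤ a := by omega
  classical
  set V'' : Finset ℕ := V ∪ gs.toFinset.image (fun D => 2 * p - D) with hV''
  have hcard : V''.card + K + 1 ≤ p := by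
    have e1 := Finset.card_union_le V (gs.toFinset.image (fun D => 2 * p - D))
    have e2 := Finset.card_image_le (s := gs.toFinset) (f := fun D => 2 * p - D)
    have e3 := List.toFinset_card_le gs
    rw [← hV''] at e1
    omega
  have hcM : ∀ D < c, 2 * p - D ∈ V'' := by
    intro D hD
    rcases h5 D (by omega) with h | h
    · exact Finset.mem_union_left _ h
    · exact Finset.mem_union_right _ (Finset.mem_image.2 ⟨D, List.mem_toFinset.2 h, rfl⟩)
  -- the search for `h`
  have hsearch : ∃ h, c + h < p ∧ 2 * p - (c + h) ∉ V'' ∧ a - h ∉ V'' := by
    by_contra hcon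
    push Not at hcon
    have hcp : c ≤ p := le_trans h6 h4
    set H1 := (Finset.range (p - c)).filter (fun h => 2 * p - (c + h) ∈ V'') with hH1
    set H3 := (Finset.range (p - c)).filter (fun h => a - h ∈ V'') with hH3
    have hcov : Finset.range (p - c) ⊆ H1 ∪ H3 := by
      intro h hh
      have hh' := Finset.mem_range.1 hh
      by_cases hx : 2 * p - (c + h) ∈ V''
      · exact Finset.mem_union_left _ (Finset.mem_filter.2 ⟨hh, hx⟩)
      · exact Finset.mem_union_right _ (Finset.mem_filter.2 ⟨hh, hcon h (by omega) hx⟩)
    have hc13 : p - c ≤ H1.card + H3.card := by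
      have := Finset.card_le_card hcov
      rw [Finset.card_range] at this
      exact this.trans (Finset.card_union_le _ _)
    -- elements of level two
    set X1 := V''.filter (fun w => a < w) with hX1
    set X2 := V''.filter (fun w => w ≤ 2 * p ∧ p < w) with hX2
    set X3 := V''.filter (fun w => w ≤ a ∧ a < w + (p - c)) with hX3
    have hX2c : c + H1.card ≤ X2.card := by
      have hd : Disjoint (Finset.range c) (H1.image (fun h => c + h)) := by
        rw [Finset.disjoint_left]
        intro x hx hx'
        obtain ⟨h, _, rfl⟩ := Finset.mem_image.1 hx'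
        have := Finset.mem_range.1 hx
        omega
      have hcc : (Finset.range c ∪ H1.image (fun h => c + h)).card = c + H1.card := by
        rw [Finset.card_union_of_disjoint hd, Finset.card_range,
          Finset.card_image_of_injective _ (fun x y hxy => by simpa using hxy)]
      rw [← hcc]
      refine Finset.card_le_card_of_injOn (fun D => 2 * p - D) ?_ ?_
      · intro D hD
        rcases Finset.mem_union.1 hD with hD | hD
        · have hD' := Finset.mem_range.1 hD
          refine Finset.mem_filter.2 ⟨hcM D hD', ?_⟩
          beta_reduce
          omega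
        · obtain ⟨h, hh, rfl⟩ := Finset.mem_image.1 hD
          have hh1 := Finset.mem_filter.1 hh
          have hh2 := Finset.mem_range.1 hh1.1
          refine Finset.mem_filter.2 ⟨hh1.2, ?_⟩
          beta_reduce
          omega
      · have hlt : ∀ D ∈ (Finset.range c ∪ H1.image (fun h => c + h)), D < p := by
          intro D hD
          rcases Finset.mem_union.1 hD with hD | hD
          · have hD' := Finset.mem_range.1 hD
            omega
          · obtain ⟨h, hh, rfl⟩ := Finset.mem_image.1 hD
            have hh1 := Finset.mem_filter.1 hh
            have hh2 := Finset.mem_range.1 hh1.1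
            omega
        intro x hx y hy hxy
        have := hlt x hx
        have := hlt y hy
        simp only at hxy
        omega
    have hX3c : H3.card ≤ X3.card := by
      refine Finset.card_le_card_of_injOn (fun h => a - h) ?_ ?_
      · intro h hh
        have hh1 := Finset.mem_filter.1 hh
        have hh2 := Finset.mem_range.1 hh1.1
        refine Finset.mem_filter.2 ⟨hh1.2, ?_⟩
        beta_reduce
        omega
      · intro x hx y hy hxy
        have hx2 := Finset.mem_range.1 (Finset.mem_filter.1 hx).1
        have hy2 := Finset.mem_range.1 (Finset.mem_filter.1 hy).1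
        simp only at hxy
        omega
    have hX1c : min (3 * p - a) z ≤ X1.card := by
      by_cases h : a ≤ 3 * p
      · have hy := hIn (min (3 * p - a) z) (min_le_right _ _)
        refine hy.trans (Finset.card_le_card ?_)
        intro w hw
        obtain ⟨hw1, hw2⟩ := Finset.mem_filter.1 hw
        refine Finset.mem_filter.2 ⟨Finset.mem_union_left _ hw1, ?_⟩
        have := min_le_left (3 * p - a) z
        omega
      · have e0 : 3 * p - a = 0 := by omega
        rw [e0]
        simp
    have hint : (X2 ∩ X3).card ≤ 3 * p - (a + c) := by
      have hsub : X2 ∩ X3 ⊆ Finset.Ioc (a - (p - c)) (2 * p) := by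
        intro w hw
        obtain ⟨hw1, hw2⟩ := Finset.mem_inter.1 hw
        have hw3 := (Finset.mem_filter.1 hw1).2
        have hw4 := (Finset.mem_filter.1 hw2).2
        rw [Finset.mem_Ioc]
        omega
      have := Finset.card_le_card hsub
      rw [Nat.card_Ioc] at this
      omega
    have hdis : Disjoint X1 (X2 ∪ X3) := by
      rw [Finset.disjoint_left]
      intro w hw hw'
      have hw1 := (Finset.mem_filter.1 hw).2
      rcases Finset.mem_union.1 hw' with hw' | hw'
      · have := (Finset.mem_filter.1 hw').2
        omega
      · have := (Finset.mem_filter.1 hw').2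
        omega
    have hsum : X1.card + (X2 ∪ X3).card ≤ V''.card := by
      rw [← Finset.card_union_of_disjoint hdis]
      refine Finset.card_le_card ?_
      intro w hw
      rcases Finset.mem_union.1 hw with hw | hw
      · exact (Finset.mem_filter.1 hw).1
      · rcases Finset.mem_union.1 hw with hw | hw
        · exact (Finset.mem_filter.1 hw).1
        · exact (Finset.mem_filter.1 hw).1
    have hui := Finset.card_union_add_card_inter X2 X3
    have hmin : min (3 * p - a) z = 3 * p - a ∨ min (3 * p - a) z = z := by
      rcases le_total (3 * p - a) z with h | h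
      · exact Or.inl (min_eq_left h)
      · exact Or.inr (min_eq_right h)
    omega
  obtain ⟨h, hh1, hh2, hh3⟩ := hsearch
  have hchain : Chain p 0 (gs ++ [c + h]) h := by
    refine h7.append ?_
    exact ⟨by omega, hh1, by show c + h - c = h; omega⟩
  have hDs : ∀ D ∈ gs ++ [c + h], D < p ∧ 2 * p - D ∉ V ∧ 2 * p - D ≠ a - h := by
    intro D hD
    rcases List.mem_append.1 hD with hD | hD
    · have := h3 D hD
      refine ⟨by omega, this.2, fun hx => hh3 ?_⟩
      rw [← hx]
      exact Finset.mem_union_right _ (Finset.mem_image.2 ⟨D, List.mem_toFinset.2 hD, rfl⟩)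
    · have : D = c + h := by simpa using hD
      subst this
      refine ⟨hh1, fun hx => hh2 (Finset.mem_union_left _ hx), by omega⟩
  refine ⟨[gs ++ [c + h]], [h], a - h, ?_, ?_, ?_, ?_, ?_, ?_⟩
  · refine ⟨?_, ?_, by omega, trivial⟩
    · simp [h1]; omega
    · -- ChS
      have key : ∀ l : List ℕ, l ≠ [] → Chain p 0 l h → ChS p p l h := by
        intro l hl hc
        cases l with
        | nil => exact absurd rfl hl
        | cons D l =>
          obtain ⟨_, hD, hc⟩ := hc
          refine ⟨D, l, rfl, by omega, by omega, hD, ?_⟩
          have e1 : p + D - p = D := by omega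
          have e2 : D - 0 = D := rfl
          rw [e1]
          rw [e2] at hc
          exact hc
      exact key _ (by simp) hchain
  · simp only [List.flatten_cons, List.flatten_nil, List.append_nil]
    rw [List.nodup_append]
    refine ⟨h2, List.nodup_singleton _, ?_⟩
    intro x hx y hy
    have : y = c + h := by simpa using hy
    subst this
    rintro rfl
    exact hh2 (Finset.mem_union_right _ (Finset.mem_image.2 ⟨_, List.mem_toFinset.2 hx, rfl⟩))
  · intro D hD
    have hD' : D ∈ gs ++ [c + h] := by simpa using hD
    exact ⟨(hDs D hD').2.1, (hDs D hD').2.2⟩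
  · simp only [List.sum_cons, List.sum_nil, List.length_cons, List.length_nil]
    omega
  · omega
  · exact fun hx => hh3 (Finset.mem_union_left _ hx)

end Irr87
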